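import Pool.Agent.Helper51.BW.Base

/-!
Part EB of swarm BW: the middle strand.
-/

open Filter Topology

namespace Pool.Agent.Helper3.BW.EB

open Pool.Agent.Helper51.BW

section

variable {α : Type} [Fintype α] {p : α → ℝ}

/-- deviations up to time `min k T0` -/
theorem dev_pre (hDEV : S_DEV) (hp : ∀ e, 0 ≤ p e) (hp1 : ∑ e, p e = 1) {f : α → ℝ}
    (hf0 : ∑ e, p e * f e = 0) {b : ℝ} (hb : 0 < b) (hfb : ∀ e, |f e| ≤ b) (k T0 : ℕ) (hk : 1 ≤ k)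
    (hT0 : 1 ≤ T0) (z : ℝ) (hz : 0 ≤ z) (U : ℝ) (hU : (T0 : ℝ) ≤ U) :
    Pr p k (fun l => ∃ t ≤ k, t ≤ T0 ∧ z ≤ |wk f l t|) ≤
      2 * Real.exp (-(z ^ 2 / (2 * b ^ 2 * U))) := by
  set m := min k T0 with hm
  have hm1 : 1 ≤ m := le_min hk hT0
  obtain ⟨n, hn⟩ : ∃ n, k = m + n := ⟨k - m, by omega⟩
  have h1 : Pr p k (fun l => ∃ t ≤ k, t ≤ T0 ∧ z ≤ |wk f l t|) =
      Pr p k (fun l => ∃ t ≤ m, z ≤ |wk f l t|) := by
    apply Pr_congr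
    intro l _
    constructor
    · rintro ⟨t, h1, h2, h3⟩
      exact ⟨t, le_min h1 h2, h3⟩
    · rintro ⟨t, h1, h3⟩
      exact ⟨t, h1.trans (min_le_left _ _), h1.trans (min_le_right _ _), h3⟩
  have h2 : Pr p k (fun l => ∃ t ≤ m, z ≤ |wk f l t|) =
      Pr p m (fun l => ∃ t ≤ m, z ≤ |wk f l t|) := by
    rw [hn]
    apply Pr_prefix p hp1
    intro l1 l2 hl1 _
    constructor
    · rintro ⟨t, ht, h3⟩
      rw [wk_append_le f l1 l2 t (by rw [hl1]; exact ht)] at h3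
      exact ⟨t, ht, h3⟩
    · rintro ⟨t, ht, h3⟩
      refine ⟨t, ht, ?_⟩
      rw [wk_append_le f l1 l2 t (by rw [hl1]; exact ht)]
      exact h3
  rw [h1, h2]
  refine (hDEV α p f hp hp1 hf0 b hb hfb m z hm1 hz).trans ?_
  apply mul_le_mul_of_nonneg_left _ (by norm_num)
  apply Real.exp_le_exp.2
  apply neg_le_neg
  have h4 : (0 : ℝ) < m := by exact_mod_cast hm1
  have h5 : (m : ℝ) ≤ U := by
    refine le_trans ?_ hU
    exact_mod_cast min_le_right k T0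
  apply div_le_div_of_nonneg_left (by positivity) (by positivity)
  exact mul_le_mul_of_nonneg_left h5 (by positivity)

end

theorem main (hCNT : S_CNT) (hDEV : S_DEV) : S_EB := by
  intro d p n u gB hp hp1 hn0 hn1 hex hg hg1 hu1 hug hpm0 hpm1
  obtain ⟨e₀, he₀⟩ := hex
  have hp' : ∀ e, 0 ≤ p e := fun e => (hp e).le
  obtain ⟨c, hc, c1, hc1, D, hD, R0, hcnt⟩ :=
    hCNT (Pool.Agent.Helper51.BW.D d) p (fn n) hp' hp1 hn0 hn1 ⟨e₀, hp e₀, he₀⟩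
  have hD0 : 0 < D := hc1.trans hD
  refine ⟨c / 2, by positivity, c1, hc1, D, hD, fun C2 hC2 => ?_⟩
  have hlim : Tendsto (fun x : ℝ => x ^ 20 * Real.exp (-x)) atTop (𝓝 0) :=
    Real.tendsto_pow_mul_exp_neg_atTop_nhds_zero 20
  set Q : ℝ := D * (2 * d + 4) with hQ
  have hQ0 : 0 < Q := by positivity
  have hδ : 0 < c / 2 / Q := by positivity
  obtain ⟨x0, hx0⟩ := (hlim.eventually (gt_mem_nhds hδ)).exists_forall_of_atTop
  obtain ⟨r1, hr1⟩ := exists_nat_ge (max (max x0 R0) (max (8 * D) (32 * (C2 + 1))))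
  refine ⟨max r1 1, fun r hr => ?_⟩
  have hr2 : 1 ≤ r := le_trans (le_max_right _ _) hr
  have hrR : (1 : ℝ) ≤ r := by exact_mod_cast hr2
  have hr3 : max (max x0 R0) (max (8 * D) (32 * (C2 + 1))) ≤ (r : ℝ) := by
    refine hr1.trans ?_
    exact_mod_cast le_trans (le_max_left _ _) hr
  have hrx : x0 ≤ r := ((le_max_left _ _).trans (le_max_left _ _)).trans hr3
  have hrR0 : R0 ≤ r := ((le_max_right _ _).trans (le_max_left _ _)).trans hr3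
  have hr8 : 8 * D ≤ r := ((le_max_left _ _).trans (le_max_right _ _)).trans hr3
  have hr32 : 32 * (C2 + 1) ≤ r := ((le_max_right _ _).trans (le_max_right _ _)).trans hr3
  have hrp : ∀ m : ℕ, 1 ≤ m → (r : ℝ) ≤ (r : ℝ) ^ m := by
    intro m hm
    have := pow_le_pow_right₀ hrR hm
    rwa [pow_one] at this
  have hR10 : R0 ≤ (r : ℝ) ^ 10 := hrR0.trans (hrp 10 (by norm_num))
  have h1 := hcnt ((r : ℝ) ^ 10) hR10
  have hpw : ((r : ℝ) ^ 10) ^ 2 = (r : ℝ) ^ 20 := by rw [← pow_mul]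
  rw [hpw] at h1
  -- the error for one `k`
  have herr : ∀ k ∈ Finset.Icc ⌈c1 * (r : ℝ) ^ 20⌉₊ ⌊D * (r : ℝ) ^ 20⌋₊,
      Pr p k (fun l => (∀ t, 1 ≤ t → t ≤ k → 0 < wk (fn n) l t) ∧ (r : ℝ) ^ 10 ≤ wk (fn n) l k) ≤
        Pr p k (EvB n u gB C2 r k) + (2 * d + 4) * Real.exp (-(r : ℝ)) := by
    intro k hk
    rw [Finset.mem_Icc] at hk
    have hk1 : 1 ≤ k := by
      refine le_trans ?_ hk.1
      apply Nat.one_le_ceil_iff.2
      positivity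
    have hkD : (k : ℝ) ≤ D * (r : ℝ) ^ 20 := by
      refine le_trans ?_ (Nat.floor_le (by positivity))
      exact_mod_cast hk.2
    -- the exponents
    have hexp1 : ∀ b : ℝ, 0 < b → b ≤ 2 →
        Real.exp (-(((r : ℝ) ^ 12) ^ 2 / (2 * b ^ 2 * (D * (r : ℝ) ^ 20)))) ≤
          Real.exp (-(r : ℝ)) := by
      intro b hb hb2
      apply Real.exp_le_exp.2
      apply neg_le_neg
      rw [le_div_iff₀ (by positivity)]
      have e1 : b ^ 2 ≤ 4 := by nlinarith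
      have e2 : (r : ℝ) * (2 * b ^ 2 * (D * (r : ℝ) ^ 20)) ≤ (r : ℝ) * (8 * D * (r : ℝ) ^ 20) := by
        apply mul_le_mul_of_nonneg_left _ (by positivity)
        have e3 : 0 < D * (r : ℝ) ^ 20 := by positivity
        nlinarith
      refine e2.trans ?_
      have e4 : (r : ℝ) * (8 * D * (r : ℝ) ^ 20) = 8 * D * (r : ℝ) ^ 21 := by ring
      have e5 : ((r : ℝ) ^ 12) ^ 2 = (r : ℝ) ^ 3 * (r : ℝ) ^ 21 := by ring
      rw [e4, e5]
      apply mul_le_mul_of_nonneg_right _ (by positivity)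
      exact hr8.trans (hrp 3 (by norm_num))
    have hP3 : Pr p k (fun l => ¬ ∀ i, ∀ t ≤ k, |wk (fn (perp u i)) l t| ≤ (r : ℝ) ^ 12) ≤
        2 * d * Real.exp (-(r : ℝ)) := by
      have e1 : Pr p k (fun l => ¬ ∀ i, ∀ t ≤ k, |wk (fn (perp u i)) l t| ≤ (r : ℝ) ^ 12) ≤
          Pr p k (fun l => ∃ i, ∃ t ≤ k, (r : ℝ) ^ 12 ≤ |wk (fn (perp u i)) l t|) := by
        apply Pr_mono p hp'
        intro l _ h
        push Not at h
        obtain ⟨i, t, ht, h2⟩ := h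
        exact ⟨i, t, ht, h2.le⟩
      refine e1.trans ((Pr_exists_le p hp' k _).trans ?_)
      have e2 : ∀ i ∈ (Finset.univ : Finset (Fin d)),
          Pr p k (fun l => ∃ t ≤ k, (r : ℝ) ^ 12 ≤ |wk (fn (perp u i)) l t|) ≤
            2 * Real.exp (-(r : ℝ)) := by
        intro i _
        have e3 := dev_pre hDEV hp' hp1 (hpm0 i) (b := 2) (by norm_num) (hpm1 i) k k hk1 hk1
          ((r : ℝ) ^ 12) (by positivity) (D * (r : ℝ) ^ 20) hkD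
        have e4 : Pr p k (fun l => ∃ t ≤ k, (r : ℝ) ^ 12 ≤ |wk (fn (perp u i)) l t|) ≤
            Pr p k (fun l => ∃ t ≤ k, t ≤ k ∧ (r : ℝ) ^ 12 ≤ |wk (fn (perp u i)) l t|) := by
          apply Pr_mono p hp'
          rintro l _ ⟨t, h1, h2⟩
          exact ⟨t, h1, h1, h2⟩
        refine e4.trans (e3.trans ?_)
        exact mul_le_mul_of_nonneg_left (hexp1 2 (by norm_num) le_rfl) (by norm_num)
      refine (Finset.sum_le_sum e2).trans ?_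
      rw [Finset.sum_const, Finset.card_univ, Fintype.card_fin, nsmul_eq_mul]
      apply le_of_eq; ring
    have hP4 : Pr p k (fun l => ¬ ∀ t : ℕ, t ≤ k → |wk (fn u) l t + gB * t| ≤ (r : ℝ) ^ 12) ≤
        2 * Real.exp (-(r : ℝ)) := by
      have hf0 : ∑ e, p e * (fn u e + gB) = 0 := by
        have : ∑ e, p e * (fn u e + gB) = ∑ e, p e * fn u e + (∑ e, p e) * gB := by
          rw [Finset.sum_mul, ← Finset.sum_add_distrib]
          exact Finset.sum_congr rfl fun e _ => by ring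
        rw [this, hug, hp1]; ring
      have hfb : ∀ e, |fn u e + gB| ≤ 2 := by
        intro e
        have := abs_add_le (fn u e) gB
        have h3 := hu1 e
        rw [abs_of_pos hg] at this
        linarith
      have e3 := dev_pre hDEV hp' hp1 hf0 (b := 2) (by norm_num) hfb k k hk1 hk1
          ((r : ℝ) ^ 12) (by positivity) (D * (r : ℝ) ^ 20) hkD
      refine le_trans ?_ (e3.trans (mul_le_mul_of_nonneg_left (hexp1 2 (by norm_num) le_rfl)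
        (by norm_num)))
      apply Pr_mono p hp'
      intro l hl h
      push Not at h
      obtain ⟨t, ht, h2⟩ := h
      refine ⟨t, ht, ht, ?_⟩
      rw [wk_add (fn u) (fun _ => gB), wk_const _ _ _ (by rw [hl]; exact ht), mul_comm (t : ℝ) gB]
      exact h2.le
    have hP5 : Pr p k (fun l => ¬ ∀ t : ℕ, t ≤ k → (t : ℝ) ≤ C2 * (r : ℝ) ^ 15 →
        |wk (fn n) l t| ≤ (r : ℝ) ^ 10 / 4) ≤ 2 * Real.exp (-(r : ℝ)) := by
      set T0 : ℕ := ⌊C2 * (r : ℝ) ^ 15⌋₊ + 1 with hT0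
      have hU : (T0 : ℝ) ≤ (C2 + 1) * (r : ℝ) ^ 15 := by
        rw [hT0]
        push_cast
        have e1 : (⌊C2 * (r : ℝ) ^ 15⌋₊ : ℝ) ≤ C2 * (r : ℝ) ^ 15 := Nat.floor_le (by positivity)
        have e2 : (1 : ℝ) ≤ (r : ℝ) ^ 15 := one_le_pow₀ hrR
        nlinarith
      have e3 := dev_pre hDEV hp' hp1 hn0 (b := 1) (by norm_num) hn1 k T0 hk1 (by omega)
          ((r : ℝ) ^ 10 / 4) (by positivity) ((C2 + 1) * (r : ℝ) ^ 15) hU
      have e4 : Real.exp (-(((r : ℝ) ^ 10 / 4) ^ 2 / (2 * 1 ^ 2 * ((C2 + 1) * (r : ℝ) ^ 15)))) ≤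
          Real.exp (-(r : ℝ)) := by
        apply Real.exp_le_exp.2
        apply neg_le_neg
        rw [le_div_iff₀ (by positivity)]
        have e5 : ((r : ℝ) ^ 10 / 4) ^ 2 = (r : ℝ) ^ 4 * (r : ℝ) ^ 16 / 16 := by ring
        have e6 : (r : ℝ) * (2 * 1 ^ 2 * ((C2 + 1) * (r : ℝ) ^ 15)) =
            32 * (C2 + 1) * (r : ℝ) ^ 16 / 16 := by ring
        rw [e5, e6]
        apply div_le_div_of_nonneg_right _ (by norm_num)
        apply mul_le_mul_of_nonneg_right _ (by positivity)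
        exact hr32.trans (hrp 4 (by norm_num))
      refine le_trans ?_ (e3.trans (mul_le_mul_of_nonneg_left e4 (by norm_num)))
      apply Pr_mono p hp'
      intro l hl h
      push Not at h
      obtain ⟨t, ht, h2, h3⟩ := h
      refine ⟨t, ht, ?_, h3.le⟩
      rw [hT0]
      exact (Nat.le_floor h2).trans (Nat.le_succ _)
    -- the union
    have hQ1 := Pr_le_and_add_not p hp' k
      (fun l => (∀ t, 1 ≤ t → t ≤ k → 0 < wk (fn n) l t) ∧ (r : ℝ) ^ 10 ≤ wk (fn n) l k)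
      (fun l => ∀ i, ∀ t ≤ k, |wk (fn (perp u i)) l t| ≤ (r : ℝ) ^ 12)
    have hQ2 := Pr_le_and_add_not p hp' k
      (fun l => ((∀ t, 1 ≤ t → t ≤ k → 0 < wk (fn n) l t) ∧ (r : ℝ) ^ 10 ≤ wk (fn n) l k) ∧
        ∀ i, ∀ t ≤ k, |wk (fn (perp u i)) l t| ≤ (r : ℝ) ^ 12)
      (fun l => ∀ t : ℕ, t ≤ k → |wk (fn u) l t + gB * t| ≤ (r : ℝ) ^ 12)
    have hQ3 := Pr_le_and_add_not p hp' k
      (fun l => (((∀ t, 1 ≤ t → t ≤ k → 0 < wk (fn n) l t) ∧ (r : ℝ) ^ 10 ≤ wk (fn n) l k) ∧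
        ∀ i, ∀ t ≤ k, |wk (fn (perp u i)) l t| ≤ (r : ℝ) ^ 12) ∧
        ∀ t : ℕ, t ≤ k → |wk (fn u) l t + gB * t| ≤ (r : ℝ) ^ 12)
      (fun l => ∀ t : ℕ, t ≤ k → (t : ℝ) ≤ C2 * (r : ℝ) ^ 15 →
        |wk (fn n) l t| ≤ (r : ℝ) ^ 10 / 4)
    have hQ4 : Pr p k (fun l => ((((∀ t, 1 ≤ t → t ≤ k → 0 < wk (fn n) l t) ∧
        (r : ℝ) ^ 10 ≤ wk (fn n) l k) ∧
        ∀ i, ∀ t ≤ k, |wk (fn (perp u i)) l t| ≤ (r : ℝ) ^ 12) ∧
        ∀ t : ℕ, t ≤ k → |wk (fn u) l t + gB * t| ≤ (r : ℝ) ^ 12) ∧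
        ∀ t : ℕ, t ≤ k → (t : ℝ) ≤ C2 * (r : ℝ) ^ 15 → |wk (fn n) l t| ≤ (r : ℝ) ^ 10 / 4) ≤
        Pr p k (EvB n u gB C2 r k) := by
      apply Pr_mono p hp'
      rintro l _ ⟨⟨⟨⟨a1, a2⟩, a3⟩, a4⟩, a5⟩
      exact ⟨a1, a2, a3, a4, a5⟩
    have hfin : (2 * (d : ℝ) + 4) * Real.exp (-(r : ℝ)) = 2 * d * Real.exp (-(r : ℝ)) +
        2 * Real.exp (-(r : ℝ)) + 2 * Real.exp (-(r : ℝ)) := by ring
    linarith
  have hsum := Finset.sum_le_sum herr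
  rw [Finset.sum_add_distrib, Finset.sum_const, nsmul_eq_mul, Nat.card_Icc] at hsum
  have hcard : ((⌊D * (r : ℝ) ^ 20⌋₊ + 1 - ⌈c1 * (r : ℝ) ^ 20⌉₊ : ℕ) : ℝ) ≤ D * (r : ℝ) ^ 20 := by
    have e1 : 1 ≤ ⌈c1 * (r : ℝ) ^ 20⌉₊ := Nat.one_le_ceil_iff.2 (by positivity)
    have e2 : ⌊D * (r : ℝ) ^ 20⌋₊ + 1 - ⌈c1 * (r : ℝ) ^ 20⌉₊ ≤ ⌊D * (r : ℝ) ^ 20⌋₊ := by omega
    refine le_trans ?_ (Nat.floor_le (by positivity))
    exact_mod_cast e2
  have herr2 : ((⌊D * (r : ℝ) ^ 20⌋₊ + 1 - ⌈c1 * (r : ℝ) ^ 20⌉₊ : ℕ) : ℝ) *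
      ((2 * d + 4) * Real.exp (-(r : ℝ))) ≤ c / 2 * (r : ℝ) ^ 10 := by
    have e1 : ((⌊D * (r : ℝ) ^ 20⌋₊ + 1 - ⌈c1 * (r : ℝ) ^ 20⌉₊ : ℕ) : ℝ) *
        ((2 * d + 4) * Real.exp (-(r : ℝ))) ≤ (D * (r : ℝ) ^ 20) *
        ((2 * d + 4) * Real.exp (-(r : ℝ))) :=
      mul_le_mul_of_nonneg_right hcard (by positivity)
    have e2 : (D * (r : ℝ) ^ 20) * ((2 * d + 4) * Real.exp (-(r : ℝ))) =
        Q * ((r : ℝ) ^ 20 * Real.exp (-(r : ℝ))) := by rw [hQ]; ring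
    have e3 := mul_le_mul_of_nonneg_left (hx0 r hrx).le hQ0.le
    have e4 : Q * (c / 2 / Q) = c / 2 := by field_simp
    have e5 : (1 : ℝ) ≤ (r : ℝ) ^ 10 := one_le_pow₀ hrR
    have e6 : c / 2 ≤ c / 2 * (r : ℝ) ^ 10 := by nlinarith
    linarith
  have hfin : c * (r : ℝ) ^ 10 = c / 2 * (r : ℝ) ^ 10 + c / 2 * (r : ℝ) ^ 10 := by ring
  linarith

end Pool.Agent.Helper3.BW.EB
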