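import Pool.Agent.Helper51.BW.Base

/-!
Part EC of swarm BW: the future strand.
-/

open Filter Topology

namespace Pool.Agent.Helper3.BW.EC

open Pool.Agent.Helper51.BW

theorem main (hLIN : S_LIN) (hSTAY0 : S_STAY0) : S_EC := by
  intro d p n u g hp hp1 hn0 hn1 hex hg hug M hM
  obtain ⟨e₀, he₀⟩ := hex
  have hp' : ∀ e, 0 ≤ p e := fun e => (hp e).le
  obtain ⟨c, hc, hstay⟩ := hSTAY0 (D d) p (fn n) hp' hp1 hn0 hn1 ⟨e₀, hp e₀, he₀⟩ M hM
  have hmean : 0 < ∑ e, p e * (fn u e - g / 2) := by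
    have h1 : ∑ e, p e * (fn u e - g / 2) = ∑ e, p e * fn u e - (∑ e, p e) * (g / 2) := by
      rw [Finset.sum_mul, ← Finset.sum_sub_distrib]
      exact Finset.sum_congr rfl fun e _ => by ring
    rw [h1, hug, hp1]; linarith
  obtain ⟨s, hs, hlin⟩ := hLIN (D d) p (fun e => fn u e - g / 2) hp' hp1 hmean
  obtain ⟨r0, hr0⟩ := exists_nat_ge (2 / (c * s) + 1)
  refine ⟨c / 2, by positivity, max r0 1, fun r hr T1 T hT1 hT => ?_⟩
  have hr1 : 1 ≤ r := le_trans (le_max_right _ _) hr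
  have hrR : (1 : ℝ) ≤ r := by exact_mod_cast hr1
  have hr2 : 2 / (c * s) + 1 ≤ (r : ℝ) := by
    refine hr0.trans ?_
    exact_mod_cast le_trans (le_max_left _ _) hr
  have h1 := hstay ((r : ℝ) ^ 10) T1 T (one_le_pow₀ hrR) (by
    rw [← pow_mul]; exact hT1) hT
  have h2 := hlin T ((r : ℝ) ^ 12)
  have h3 : Pr p T (fun l => ∀ t, 1 ≤ t → t ≤ T1 → 0 < wk (fn n) l t) ≤
      Pr p T (EvC n u g r T1 T) + Pr p T (fun l => ∃ t ≤ T, wk (fun e => fn u e - g / 2) l t ≤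
        -((r : ℝ) ^ 12)) := by
    refine le_trans (Pr_le_and_add_not p hp' T _
      (fun l => ∀ t : ℕ, t ≤ T → g / 2 * t - (r : ℝ) ^ 12 ≤ wk (fn u) l t)) ?_
    refine add_le_add le_rfl (Pr_mono p hp' T fun l hl h => ?_)
    push Not at h
    obtain ⟨t, ht, ht2⟩ := h
    refine ⟨t, ht, ?_⟩
    rw [wk_sub (fn u) (fun _ => g / 2), wk_const _ _ _ (by rw [hl]; exact ht)]
    linarith
  have h4 : Real.exp (-(s * (r : ℝ) ^ 12)) ≤ c / 2 / (r : ℝ) ^ 10 := by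
    have h5 : 0 < s * (r : ℝ) ^ 12 := by positivity
    have h6 : Real.exp (-(s * (r : ℝ) ^ 12)) ≤ 1 / (s * (r : ℝ) ^ 12) := by
      rw [Real.exp_neg, ← one_div]
      apply one_div_le_one_div_of_le h5
      have := Real.add_one_le_exp (s * (r : ℝ) ^ 12)
      linarith
    refine h6.trans ?_
    rw [div_div, div_le_div_iff₀ h5 (by positivity)]
    have h7 : 2 ≤ c * s * (r : ℝ) ^ 2 := by
      have h8 : 2 / (c * s) ≤ (r : ℝ) ^ 2 := by nlinarith
      have h9 : 0 < c * s := by positivity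
      rw [div_le_iff₀ h9] at h8
      linarith
    have h10 : (r : ℝ) ^ 12 = (r : ℝ) ^ 10 * (r : ℝ) ^ 2 := by ring
    have h11 : 0 < (r : ℝ) ^ 10 := by positivity
    rw [h10]
    nlinarith
  have h12 : c / (r : ℝ) ^ 10 = c / 2 / (r : ℝ) ^ 10 + c / 2 / (r : ℝ) ^ 10 := by ring
  linarith

end Pool.Agent.Helper3.BW.EC
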