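import Pool.Agent.Helper51.BW.Base

/-!
Part GAP of swarm BW.
-/

open Filter Topology

namespace Pool.Agent.Helper3.BW.GAP

open Pool.Agent.Helper51.BW

theorem decomp {d : ℕ} (u h : Fin d → ℝ) (z : V d) :
    ip h z = (∑ j, h j * u j) * ip u z + ∑ l, h l * ip (perp u l) z := by
  have h1 : ∀ l, ip (perp u l) z = (z l : ℝ) - u l * ip u z := by
    intro l
    unfold ip perp
    have h2 : ∀ j, ((if j = l then (1 : ℝ) else 0) - u l * u j) * (z j : ℝ) =
        (if j = l then (z j : ℝ) else 0) - u l * (u j * z j) := by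
      intro j
      split_ifs <;> ring
    rw [Finset.sum_congr rfl fun j _ => h2 j, Finset.sum_sub_distrib, Finset.sum_ite_eq',
      if_pos (Finset.mem_univ _), ← Finset.mul_sum]
  have h3 : ∑ l, h l * ip (perp u l) z = ∑ l, h l * ((z l : ℝ) - u l * ip u z) :=
    Finset.sum_congr rfl fun l _ => by rw [h1 l]
  rw [h3, Finset.sum_mul, ← Finset.sum_add_distrib]
  have h4 : ip h z = ∑ l, h l * (z l : ℝ) := rfl
  rw [h4]
  exact Finset.sum_congr rfl fun l _ => by ring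

theorem main : S_GAP := by
  intro d u h i C _ hi hhu hC pm ε hpm hε
  set K1 : ℝ := (∑ j, h j * u j) / (2 * i) with hK1
  set K2 : ℝ := 4 * ∑ l, |h l| with hK2
  have hiR : (1 : ℝ) ≤ i := by exact_mod_cast hi
  have hK1p : 0 < K1 := by rw [hK1]; positivity
  have hK2p : 0 ≤ K2 := by rw [hK2]; exact mul_nonneg (by norm_num) (Finset.sum_nonneg fun _ _ => abs_nonneg _)
  have hlim : Tendsto (fun x : ℝ => x ^ 40 * Real.exp (-x)) atTop (𝓝 0) :=
    Real.tendsto_pow_mul_exp_neg_atTop_nhds_zero 40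
  have hδ : 0 < ε * Real.sqrt pm / (C + 1) ^ 2 := by positivity
  obtain ⟨x0, hx0⟩ := (hlim.eventually (gt_mem_nhds hδ)).exists_forall_of_atTop
  obtain ⟨r1, hr1⟩ := exists_nat_ge (max x0 ((K2 + 1) / K1 + 1))
  refine ⟨max r1 2, fun r hr => ?_⟩
  have hr2 : 2 ≤ r := le_trans (le_max_right _ _) hr
  have hrR : (2 : ℝ) ≤ r := by exact_mod_cast hr2
  have hr3 : max x0 ((K2 + 1) / K1 + 1) ≤ (r : ℝ) := by
    refine hr1.trans ?_
    exact_mod_cast le_trans (le_max_left _ _) hr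
  have hrx : x0 ≤ r := (le_max_left _ _).trans hr3
  have hrK : (K2 + 1) / K1 + 1 ≤ r := (le_max_right _ _).trans hr3
  refine ⟨(r : ℝ) ^ 12 * (K1 * (r : ℝ) ^ 3 - K2), ?_, ?_⟩
  · intro z z' θ θ' h1 h2 h3 h4 h5
    rw [decomp u h z, decomp u h z']
    have h6 : ∑ l, h l * ip (perp u l) z' - K2 * (r : ℝ) ^ 12 ≤ ∑ l, h l * ip (perp u l) z := by
      have h7 : ∀ l, h l * ip (perp u l) z' - 4 * |h l| * (r : ℝ) ^ 12 ≤ h l * ip (perp u l) z := by
        intro l
        have h8 : |ip (perp u l) z' - ip (perp u l) z| ≤ 4 * (r : ℝ) ^ 12 := by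
          have := abs_sub (ip (perp u l) z') (ip (perp u l) z)
          linarith [h4 l, h5 l]
        have h9 : h l * (ip (perp u l) z' - ip (perp u l) z) ≤ |h l| * (4 * (r : ℝ) ^ 12) := by
          refine (le_abs_self _).trans ?_
          rw [abs_mul]
          exact mul_le_mul_of_nonneg_left h8 (abs_nonneg _)
        nlinarith
      have h10 := Finset.sum_le_sum fun l (_ : l ∈ (Finset.univ : Finset (Fin d))) => h7 l
      rw [Finset.sum_sub_distrib, ← Finset.sum_mul, ← Finset.mul_sum] at h10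
      rw [hK2]
      exact h10
    have h11 : (∑ j, h j * u j) * ip u z' + K1 * (r : ℝ) ^ 15 ≤ (∑ j, h j * u j) * ip u z := by
      have h12 : (r : ℝ) ^ 15 / (2 * i) ≤ ip u z - ip u z' := by linarith
      have h13 := mul_le_mul_of_nonneg_left h12 hhu.le
      have h14 : (∑ j, h j * u j) * ((r : ℝ) ^ 15 / (2 * i)) = K1 * (r : ℝ) ^ 15 := by
        rw [hK1]; ring
      nlinarith
    have h15 : (r : ℝ) ^ 12 * (K1 * (r : ℝ) ^ 3 - K2) = K1 * (r : ℝ) ^ 15 - K2 * (r : ℝ) ^ 12 := by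
      ring
    rw [h15]
    linarith
  · intro Γ hΓ a b hab hba
    have hbig : (r : ℝ) ≤ K1 * (r : ℝ) ^ 3 - K2 := by
      have h1 : K2 + 1 ≤ K1 * (r : ℝ) := by
        have : (K2 + 1) / K1 ≤ r := by linarith
        rw [div_le_iff₀ hK1p] at this
        linarith
      have h2 : (K2 + 1) * (r : ℝ) ≤ K1 * (r : ℝ) ^ 2 := by nlinarith
      have h3 : K1 * (r : ℝ) ^ 2 ≤ K1 * (r : ℝ) ^ 3 := by
        apply mul_le_mul_of_nonneg_left _ hK1p.le
        exact pow_le_pow_right₀ (by linarith) (by norm_num)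
      nlinarith
    have hΓr : 2 * (r : ℝ) ≤ Γ := by
      have h1 : 2 * (r : ℝ) ≤ (r : ℝ) ^ 12 * (r : ℝ) := by
        have h2 : (2 : ℝ) ≤ (r : ℝ) ^ 12 := by
          have h3 : (r : ℝ) ^ 1 ≤ (r : ℝ) ^ 12 := pow_le_pow_right₀ (by linarith) (by norm_num)
          rw [pow_one] at h3
          linarith
        nlinarith
      have h2 : (r : ℝ) ^ 12 * (r : ℝ) ≤ (r : ℝ) ^ 12 * (K1 * (r : ℝ) ^ 3 - K2) :=
        mul_le_mul_of_nonneg_left hbig (by positivity)
      linarith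
    have hs1 : Real.sqrt (Real.exp (-Γ) / pm) ≤ Real.exp (-(r : ℝ)) / Real.sqrt pm := by
      rw [Real.sqrt_div (Real.exp_pos _).le]
      apply div_le_div_of_nonneg_right _ (Real.sqrt_nonneg _)
      rw [Real.sqrt_le_left (Real.exp_pos _).le, ← Real.exp_nat_mul]
      apply Real.exp_le_exp.2
      push_cast
      linarith
    have hba' : ((b : ℝ) - a + 1) ^ 2 ≤ (C + 1) ^ 2 * (r : ℝ) ^ 40 := by
      have h1 : (0 : ℝ) ≤ (b : ℝ) - a := by
        have : (a : ℝ) ≤ b := by exact_mod_cast hab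
        linarith
      have h2 : (1 : ℝ) ≤ (r : ℝ) ^ 20 := one_le_pow₀ (by linarith)
      have h3 : (b : ℝ) - a + 1 ≤ (C + 1) * (r : ℝ) ^ 20 := by nlinarith
      calc ((b : ℝ) - a + 1) ^ 2 ≤ ((C + 1) * (r : ℝ) ^ 20) ^ 2 :=
            pow_le_pow_left₀ (by linarith) h3 2
        _ = _ := by ring
    have hfin := hx0 r hrx
    have hsq : 0 < Real.sqrt pm := Real.sqrt_pos.2 hpm
    calc ((b : ℝ) - a + 1) ^ 2 * Real.sqrt (Real.exp (-Γ) / pm)
        ≤ ((C + 1) ^ 2 * (r : ℝ) ^ 40) * (Real.exp (-(r : ℝ)) / Real.sqrt pm) :=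
          mul_le_mul hba' hs1 (Real.sqrt_nonneg _) (by positivity)
      _ = ((r : ℝ) ^ 40 * Real.exp (-(r : ℝ))) * ((C + 1) ^ 2 / Real.sqrt pm) := by ring
      _ ≤ (ε * Real.sqrt pm / (C + 1) ^ 2) * ((C + 1) ^ 2 / Real.sqrt pm) :=
          mul_le_mul_of_nonneg_right hfin.le (by positivity)
      _ = ε := by field_simp

end Pool.Agent.Helper3.BW.GAP
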